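import Mathlib

set_option autoImplicit false

namespace Pool.Agent.Results.MP_348529_lc.DirectedLowerBound

open Finset

section Signs
variable {α : Type} [DecidableEq α]

/-- the signed sum -/
noncomputable def sg (b : α → ℝ) (s T : Finset α) : ℝ := ∑ v ∈ s, (if v ∈ T then b v else -b v)

theorem sg_insert1 (b : α → ℝ) {s T : Finset α} {a : α} (ha : a ∉ s) (hT : T ⊆ s) :
    sg b (insert a s) T = -b a + sg b s T := by
  unfold sg
  rw [sum_insert ha, if_neg (fun h => ha (hT h))]

theorem sg_insert2 (b : α → ℝ) {s T : Finset α} {a : α} (ha : a ∉ s) (_hT : T ⊆ s) :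
    sg b (insert a s) (insert a T) = b a + sg b s T := by
  unfold sg
  rw [sum_insert ha, if_pos (mem_insert_self a T)]
  congr 1
  apply sum_congr rfl
  intro v hv
  have : v ≠ a := fun h => ha (h ▸ hv)
  simp [this]

theorem second (b : α → ℝ) (s : Finset α) :
    ∑ T ∈ s.powerset, sg b s T ^ 2 = 2 ^ s.card * ∑ v ∈ s, b v ^ 2 := by
  induction s using Finset.induction_on with
  | empty => simp [sg]
  | insert a s ha ih =>
    rw [sum_powerset_insert ha, ← sum_add_distrib, card_insert_of_notMem ha, sum_insert ha]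
    have h : ∀ T ∈ s.powerset, sg b (insert a s) T ^ 2 + sg b (insert a s) (insert a T) ^ 2 =
        2 * b a ^ 2 + 2 * sg b s T ^ 2 := by
      intro T hT
      rw [sg_insert1 b ha (mem_powerset.1 hT), sg_insert2 b ha (mem_powerset.1 hT)]
      ring
    rw [sum_congr rfl h, sum_add_distrib, ← mul_sum, ← mul_sum, ih, sum_const, card_powerset,
      nsmul_eq_mul]
    push_cast
    ring

theorem fourth (b : α → ℝ) (s : Finset α) :
    ∑ T ∈ s.powerset, sg b s T ^ 4 ≤ 2 ^ s.card * (3 * (∑ v ∈ s, b v ^ 2) ^ 2) := by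
  induction s using Finset.induction_on with
  | empty => simp [sg]
  | insert a s ha ih =>
    rw [sum_powerset_insert ha, ← sum_add_distrib, card_insert_of_notMem ha, sum_insert ha]
    have h : ∀ T ∈ s.powerset, sg b (insert a s) T ^ 4 + sg b (insert a s) (insert a T) ^ 4 =
        2 * b a ^ 4 + 12 * b a ^ 2 * sg b s T ^ 2 + 2 * sg b s T ^ 4 := by
      intro T hT
      rw [sg_insert1 b ha (mem_powerset.1 hT), sg_insert2 b ha (mem_powerset.1 hT)]
      ring
    rw [sum_congr rfl h, sum_add_distrib, sum_add_distrib, ← mul_sum, ← mul_sum, ← mul_sum,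
      second, sum_const, card_powerset, nsmul_eq_mul]
    push_cast
    set σ := ∑ v ∈ s, b v ^ 2
    have h3 : 0 ≤ 2 ^ s.card * (b a ^ 4) := by positivity
    have h4 : 2 ^ (s.card + 1) * (3 * (b a ^ 2 + σ) ^ 2) = 2 * (2 ^ s.card * b a ^ 4) +
        12 * b a ^ 2 * (2 ^ s.card * σ) + 2 * (2 ^ s.card * (3 * σ ^ 2)) +
        4 * (2 ^ s.card * (b a ^ 4)) := by ring
    rw [h4]
    linarith [ih, h3]

/-- Khintchine's inequality -/
theorem khin (b : α → ℝ) (s : Finset α) :
    5 / 9 * (2 ^ s.card * Real.sqrt (∑ v ∈ s, b v ^ 2)) ≤ ∑ T ∈ s.powerset, |sg b s T| := by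
  set q := ∑ v ∈ s, b v ^ 2 with hq
  have hq0 : 0 ≤ q := sum_nonneg fun v _ => sq_nonneg _
  set σ := Real.sqrt q with hσ
  have hσ0 : 0 ≤ σ := Real.sqrt_nonneg _
  have hσ2 : σ ^ 2 = q := Real.sq_sqrt hq0
  rcases hσ0.eq_or_lt with h0 | hpos
  · rw [← h0]
    simp only [mul_zero]
    exact sum_nonneg fun T _ => abs_nonneg _
  have key : ∀ y : ℝ, y ^ 2 * (σ ^ 2) - 4 / 27 * y ^ 4 ≤ |y| * σ ^ 3 := by
    intro y
    have hy := abs_nonneg y
    have e2 : y ^ 2 = |y| ^ 2 := (sq_abs y).symm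
    have e4 : y ^ 4 = |y| ^ 4 := by
      rw [show y ^ 4 = (y ^ 2) ^ 2 by ring, e2]; ring
    rw [e2, e4]
    set z := |y|
    have h1 : z * σ ^ 3 - (z ^ 2 * σ ^ 2 - 4 / 27 * z ^ 4) =
        z * ((σ - 2 / 3 * z) ^ 2 * (σ + z / 3)) := by ring
    have h2 : 0 ≤ z * ((σ - 2 / 3 * z) ^ 2 * (σ + z / 3)) := by positivity
    linarith
  have h1 := sum_le_sum (s := s.powerset) fun T _ => key (sg b s T)
  rw [sum_sub_distrib, ← sum_mul, ← sum_mul, ← mul_sum, second] at h1
  have h4 := fourth b s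
  rw [← hq] at h1 h4
  set S := ∑ T ∈ s.powerset, |sg b s T|
  set N : ℝ := 2 ^ s.card with hN
  have hN0 : 0 < N := by positivity
  have h5 : N * q * σ ^ 2 - 4 / 27 * (N * (3 * q ^ 2)) ≤ S * σ ^ 3 := by linarith
  rw [← hσ2] at h5
  have h6 : 5 / 9 * (N * σ) * σ ^ 3 ≤ S * σ ^ 3 := by
    refine le_trans (le_of_eq ?_) h5
    ring
  exact le_of_mul_le_mul_right h6 (by positivity)

end Signs

section Graph
variable {α : Type} [Fintype α] [DecidableEq α]

/-- the quadratic form -/
noncomputable def Qf (B : α → α → ℝ) (x y : α → ℝ) : ℝ := ∑ u, ∑ v, B u v * (x u * y v)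

/-- the sum over the ordered pairs inside `T` -/
noncomputable def Ff (B : α → α → ℝ) (T : Finset α) : ℝ := ∑ u ∈ T, ∑ v ∈ T, B u v

/-- indicator -/
noncomputable def ic (T : Finset α) (v : α) : ℝ := if v ∈ T then 1 else 0

theorem Qf_ic (B : α → α → ℝ) (T : Finset α) : Qf B (ic T) (ic T) = Ff B T := by
  unfold Qf Ff ic
  rw [← Finset.sum_filter_add_sum_filter_not univ (fun u => u ∈ T)]
  have h1 : ∑ u ∈ univ.filter (fun u => u ∉ T), ∑ v, B u v *
      ((if u ∈ T then (1 : ℝ) else 0) * (if v ∈ T then (1 : ℝ) else 0)) = 0 := by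
    apply sum_eq_zero
    intro u hu
    rw [mem_filter] at hu
    simp [hu.2]
  rw [h1, add_zero]
  have h2 : univ.filter (fun u => u ∈ T) = T := by ext; simp
  rw [h2]
  apply sum_congr rfl
  intro u hu
  simp [hu, Finset.sum_ite_mem]

theorem Qf_diff {B : α → α → ℝ} {δ : ℝ} (hF : ∀ T, |Ff B T| ≤ δ) {P N : Finset α}
    (hPN : Disjoint P N) : |Qf B (fun v => ic P v - ic N v) (fun v => ic P v - ic N v)| ≤ 5 * δ := by
  have h1 : Qf B (fun v => ic P v - ic N v) (fun v => ic P v - ic N v) +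
      Qf B (ic (P ∪ N)) (ic (P ∪ N)) = 2 * Qf B (ic P) (ic P) + 2 * Qf B (ic N) (ic N) := by
    have hu : ∀ v, ic (P ∪ N) v = ic P v + ic N v := by
      intro v
      unfold ic
      by_cases h1 : v ∈ P
      · have h2 : v ∉ N := fun h => Finset.disjoint_left.1 hPN h1 h
        simp [h1, h2]
      · by_cases h2 : v ∈ N <;> simp [h1, h2]
    unfold Qf
    rw [mul_sum, mul_sum, ← sum_add_distrib, ← sum_add_distrib]
    apply sum_congr rfl
    intro u _
    rw [mul_sum, mul_sum, ← sum_add_distrib, ← sum_add_distrib]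
    apply sum_congr rfl
    intro v _
    rw [hu, hu]
    ring
  rw [Qf_ic, Qf_ic, Qf_ic] at h1
  have a1 := abs_le.1 (hF (P ∪ N))
  have a2 := abs_le.1 (hF P)
  have a3 := abs_le.1 (hF N)
  rw [abs_le]
  constructor <;> linarith [a1.1, a1.2, a2.1, a2.2, a3.1, a3.2]

/-- sign vector of a set -/
noncomputable def sv (T : Finset α) (v : α) : ℝ := if v ∈ T then 1 else -1

theorem Qf_sv {B : α → α → ℝ} (hs : ∀ u v, B u v = B v u) {δ : ℝ} (hF : ∀ T, |Ff B T| ≤ δ)
    (S T : Finset α) : Qf B (sv S) (sv T) ≤ 10 * δ := by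
  have hsym : Qf B (sv T) (sv S) = Qf B (sv S) (sv T) := by
    unfold Qf
    rw [sum_comm]
    apply sum_congr rfl
    intro u _
    apply sum_congr rfl
    intro v _
    rw [hs v u]
    ring
  have h1 : 4 * Qf B (sv S) (sv T) =
      4 * Qf B (fun v => ic (S ∩ T) v - ic (S ∪ T)ᶜ v) (fun v => ic (S ∩ T) v - ic (S ∪ T)ᶜ v) -
      4 * Qf B (fun v => ic (S \ T) v - ic (T \ S) v) (fun v => ic (S \ T) v - ic (T \ S) v) := by
    have e1 : ∀ v, ic (S ∩ T) v - ic (S ∪ T)ᶜ v = (sv S v + sv T v) / 2 := by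
      intro v
      unfold ic sv
      by_cases h1 : v ∈ S <;> by_cases h2 : v ∈ T <;> simp [h1, h2]
    have e2 : ∀ v, ic (S \ T) v - ic (T \ S) v = (sv S v - sv T v) / 2 := by
      intro v
      unfold ic sv
      by_cases h1 : v ∈ S <;> by_cases h2 : v ∈ T <;> simp [h1, h2]
      norm_num
    have e3 : 4 * Qf B (sv S) (sv T) = 2 * Qf B (sv S) (sv T) + 2 * Qf B (sv T) (sv S) := by
      rw [hsym]; ring
    rw [e3]
    unfold Qf
    simp only [e1, e2]
    rw [mul_sum, mul_sum, mul_sum, mul_sum, ← sum_add_distrib, ← sum_sub_distrib]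
    apply sum_congr rfl
    intro u _
    rw [mul_sum, mul_sum, mul_sum, mul_sum, ← sum_add_distrib, ← sum_sub_distrib]
    apply sum_congr rfl
    intro v _
    ring
  have d1 : Disjoint (S ∩ T) (S ∪ T)ᶜ := by
    rw [Finset.disjoint_left]
    intro v h1 h2
    rw [mem_compl] at h2
    exact h2 (mem_union_left _ (mem_inter.1 h1).1)
  have d2 : Disjoint (S \ T) (T \ S) := by
    rw [Finset.disjoint_left]
    intro v h1 h2
    exact (mem_sdiff.1 h2).2 (mem_sdiff.1 h1).1
  have a1 := abs_le.1 (Qf_diff hF d1)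
  have a2 := abs_le.1 (Qf_diff hF d2)
  linarith [a1.1, a1.2, a2.1, a2.2]

theorem row_abs {B : α → α → ℝ} (hs : ∀ u v, B u v = B v u) {δ : ℝ} (hF : ∀ T, |Ff B T| ≤ δ)
    (T : Finset α) : ∑ u, |sg (B u) univ T| ≤ 10 * δ := by
  classical
  have h1 : ∀ u, sg (B u) univ T = ∑ v, B u v * sv T v := by
    intro u
    unfold sg sv
    apply sum_congr rfl
    intro v _
    split_ifs <;> ring
  set S : Finset α := univ.filter (fun u => 0 ≤ sg (B u) univ T) with hS
  have h2 : ∑ u, |sg (B u) univ T| = Qf B (sv S) (sv T) := by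
    unfold Qf
    apply sum_congr rfl
    intro u _
    have h3 : ∑ v, B u v * (sv S u * sv T v) = sv S u * sg (B u) univ T := by
      rw [h1, mul_sum]
      apply sum_congr rfl
      intro v _
      ring
    rw [h3]
    unfold sv
    by_cases h : 0 ≤ sg (B u) univ T
    · rw [if_pos (by rw [hS, mem_filter]; exact ⟨mem_univ _, h⟩), abs_of_nonneg h, one_mul]
    · rw [if_neg (by rw [hS, mem_filter]; exact fun h' => h h'.2), abs_of_neg (not_le.1 h)]
      ring
  rw [h2]
  exact Qf_sv hs hF S T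

/-- the sum of the norms of the rows -/
theorem row_norm {B : α → α → ℝ} (hs : ∀ u v, B u v = B v u) {δ : ℝ} (hF : ∀ T, |Ff B T| ≤ δ) :
    ∑ u, Real.sqrt (∑ v, B u v ^ 2) ≤ 18 * δ := by
  have h1 : ∑ T ∈ (univ : Finset α).powerset, ∑ u, |sg (B u) univ T| ≤
      ∑ T ∈ (univ : Finset α).powerset, 10 * δ := sum_le_sum fun T _ => row_abs hs hF T
  rw [sum_comm, sum_const, card_powerset, nsmul_eq_mul] at h1
  have h2 : ∑ u, 5 / 9 * (2 ^ (univ : Finset α).card * Real.sqrt (∑ v, B u v ^ 2)) ≤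
      ∑ u, ∑ T ∈ (univ : Finset α).powerset, |sg (B u) univ T| :=
    sum_le_sum fun u _ => khin (B u) univ
  rw [← mul_sum, ← mul_sum] at h2
  push_cast at h1
  have hN : (0 : ℝ) < 2 ^ (univ : Finset α).card := by positivity
  have h3 := h2.trans h1
  have h4 : 2 ^ (univ : Finset α).card * (5 / 9 * ∑ u, Real.sqrt (∑ v, B u v ^ 2)) ≤
      2 ^ (univ : Finset α).card * (10 * δ) := by linarith
  have h5 := le_of_mul_le_mul_left h4 hN
  linarith

/-- weighted graphs which are close to the complete graph have many edges -/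
theorem graph {a : α → α → ℝ} (ha0 : ∀ u v, 0 ≤ a u v) (hd : ∀ u, a u u = 0)
    (hs : ∀ u v, a u v = a v u) {ε : ℝ} (he : 0 < ε) (h1 : 1 ≤ ε ^ 2 * Fintype.card α)
    (h2 : ε ≤ 1 / 10)
    (hcut : ∀ T : Finset α, |Ff (fun u v => if u = v then 0 else a u v - 1) univ -
      Ff (fun u v => if u = v then 0 else a u v - 1) T| ≤ ε * (Fintype.card α) ^ 2) :
    (Fintype.card α : ℝ) / (518400 * ε ^ 2) ≤
      ((univ.filter (fun p : α × α => a p.1 p.2 ≠ 0)).card : ℝ) := by
  classical
  set B : α → α → ℝ := fun u v => if u = v then 0 else a u v - 1 with hB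
  set n : ℝ := (Fintype.card α : ℝ) with hn
  have hBs : ∀ u v, B u v = B v u := by
    intro u v
    simp only [hB]
    by_cases h : u = v
    · rw [if_pos h, if_pos h.symm]
    · rw [if_neg h, if_neg (Ne.symm h), hs u v]
  have hn100 : 100 ≤ n := by
    have e1 : ε ^ 2 ≤ 1 / 100 := by nlinarith
    have e2 : ε ^ 2 * n ≤ 1 / 100 * n := mul_le_mul_of_nonneg_right e1 (Nat.cast_nonneg _)
    linarith
  have hn0 : 0 < n := by linarith
  have h0 : Ff B ∅ = 0 := by simp [Ff]
  have hF : ∀ T, |Ff B T| ≤ 2 * ε * n ^ 2 := by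
    intro T
    have e1 := hcut ∅
    rw [h0, sub_zero] at e1
    have e2 := hcut T
    have e3 := abs_le.1 e1
    have e4 := abs_le.1 e2
    rw [abs_le]
    constructor <;> linarith [e3.1, e3.2, e4.1, e4.2]
  have hrow := row_norm hBs hF
  -- degrees
  set d : α → ℝ := fun u => ((univ.filter (fun v => a u v ≠ 0)).card : ℝ) with hdd
  have hd0 : ∀ u, 0 ≤ d u := fun u => Nat.cast_nonneg _
  set D : ℝ := ∑ u, d u with hD
  have hDD : ((univ.filter (fun p : α × α => a p.1 p.2 ≠ 0)).card : ℝ) = D := by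
    rw [hD, hdd]
    push_cast [Finset.card_filter]
    rw [Fintype.sum_prod_type]
  rw [hDD]
  have hrow1 : ∀ u, ∑ v, a u v - d u ≤ Real.sqrt (d u) * Real.sqrt (∑ v, B u v ^ 2) := by
    intro u
    set s := univ.filter (fun v => a u v ≠ 0) with hsd
    have e1 : ∑ v, a u v - d u = ∑ v ∈ s, (a u v - 1) := by
      rw [sum_sub_distrib, sum_const, nsmul_eq_mul, mul_one, hsd, sum_filter_ne_zero]
    have e2 : (∑ v ∈ s, (a u v - 1)) ^ 2 ≤ d u * ∑ v ∈ s, (a u v - 1) ^ 2 :=
      sq_sum_le_card_mul_sum_sq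
    have e3 : ∑ v ∈ s, (a u v - 1) ^ 2 ≤ ∑ v, B u v ^ 2 := by
      have e4 : ∑ v ∈ s, (a u v - 1) ^ 2 = ∑ v ∈ s, B u v ^ 2 := by
        apply sum_congr rfl
        intro v hv
        rw [hsd, mem_filter] at hv
        have : u ≠ v := fun h => hv.2 (by rw [← h]; exact hd u)
        simp only [hB, if_neg this]
      rw [e4]
      exact sum_le_sum_of_subset_of_nonneg (subset_univ _) fun _ _ _ => sq_nonneg _
    rw [e1, ← Real.sqrt_mul (hd0 u)]
    refine (le_abs_self _).trans (Real.abs_le_sqrt (e2.trans ?_))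
    exact mul_le_mul_of_nonneg_left e3 (hd0 u)
  clear_value D
  by_cases hbig : n ^ 2 / 8 ≤ D
  · refine le_trans ?_ hbig
    rw [div_le_iff₀ (by positivity)]
    have : 0 ≤ n * (ε ^ 2 * n - 1) := mul_nonneg hn0.le (by linarith)
    nlinarith
  · push Not at hbig
    obtain ⟨K, hK⟩ : ∃ K : ℝ, K = 4 * D / n := ⟨_, rfl⟩
    have hKD : D = n / 4 * K := by
      rw [hK, mul_div_assoc', eq_div_iff hn0.ne']
      ring
    have hDnn : 0 ≤ D := by
      rw [hD]
      exact sum_nonneg fun u _ => hd0 u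
    have hK0 : 0 ≤ K := by
      rw [hK]
      exact div_nonneg (mul_nonneg (by norm_num) hDnn) hn0.le
    set G : Finset α := univ.filter (fun u => d u ≤ K) with hG
    -- the set `G` is large
    have hGc : ((univ.filter (fun u => ¬ d u ≤ K)).card : ℝ) ≤ n / 4 := by
      rcases hDnn.eq_or_lt with hz | hp
      · have : univ.filter (fun u => ¬ d u ≤ K) = ∅ := by
          apply filter_eq_empty_iff.2
          intro u _
          have := single_le_sum (f := d) (fun v _ => hd0 v) (mem_univ u)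
          rw [not_not]
          rw [← hD, ← hz] at this
          linarith
        rw [this, card_empty, Nat.cast_zero]
        exact div_nonneg hn0.le (by norm_num)
      · have hKp : 0 < K := by
          rw [hK]
          exact div_pos (mul_pos (by norm_num) hp) hn0
        have e1 : ((univ.filter (fun u => ¬ d u ≤ K)).card : ℝ) * K ≤ D := by
          calc ((univ.filter (fun u => ¬ d u ≤ K)).card : ℝ) * K
              = ∑ u ∈ univ.filter (fun u => ¬ d u ≤ K), K := by rw [sum_const, nsmul_eq_mul]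
            _ ≤ ∑ u ∈ univ.filter (fun u => ¬ d u ≤ K), d u :=
                sum_le_sum fun u hu => by
                  rw [mem_filter] at hu
                  exact (not_le.1 hu.2).le
            _ ≤ D := by
                rw [hD]
                exact sum_le_sum_of_subset_of_nonneg (subset_univ _) fun u _ _ => hd0 u
        rw [hKD] at e1
        exact le_of_mul_le_mul_right (by linarith) hKp
    have hGn : 3 / 4 * n ≤ (G.card : ℝ) := by
      have e1 := Finset.card_filter_add_card_filter_not (s := (univ : Finset α))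
        (fun u => d u ≤ K)
      have e2 := congrArg (Nat.cast : ℕ → ℝ) e1
      rw [Nat.cast_add, card_univ] at e2
      have e3 : (G.card : ℝ) + ((univ.filter (fun u => ¬ d u ≤ K)).card : ℝ) = n := e2
      linarith
    -- upper bound
    have u1 : ∑ u ∈ G, (∑ v, a u v - d u) ≤ Real.sqrt K * (18 * (2 * ε * n ^ 2)) := by
      calc ∑ u ∈ G, (∑ v, a u v - d u)
          ≤ ∑ u ∈ G, Real.sqrt K * Real.sqrt (∑ v, B u v ^ 2) := by
            apply sum_le_sum
            intro u hu
            rw [hG, mem_filter] at hu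
            exact (hrow1 u).trans (mul_le_mul_of_nonneg_right (Real.sqrt_le_sqrt hu.2)
              (Real.sqrt_nonneg _))
        _ ≤ ∑ u, Real.sqrt K * Real.sqrt (∑ v, B u v ^ 2) :=
            sum_le_sum_of_subset_of_nonneg (subset_univ _) fun _ _ _ => by positivity
        _ = Real.sqrt K * ∑ u, Real.sqrt (∑ v, B u v ^ 2) := by rw [mul_sum]
        _ ≤ _ := mul_le_mul_of_nonneg_left hrow (Real.sqrt_nonneg _)
    -- lower bound
    have l1 : (G.card : ℝ) * (G.card - 1) - 2 * ε * n ^ 2 ≤ ∑ u ∈ G, ∑ v, a u v := by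
      have e1 : Ff B G = ∑ u ∈ G, ∑ v ∈ G, a u v - (G.card : ℝ) * (G.card - 1) := by
        unfold Ff
        have e2 : ∀ u ∈ G, ∑ v ∈ G, B u v = ∑ v ∈ G, a u v - (G.card - 1) := by
          intro u hu
          have e3 : ∀ v ∈ G, B u v = a u v - (1 - if u = v then (1 : ℝ) else 0) := by
            intro v _
            simp only [hB]
            split_ifs with h
            · rw [← h, hd u]; ring
            · ring
          rw [sum_congr rfl e3, sum_sub_distrib, sum_sub_distrib, sum_const, nsmul_eq_mul, mul_one,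
            sum_ite_eq, if_pos hu]
        rw [sum_congr rfl e2, sum_sub_distrib, sum_const, nsmul_eq_mul]
      have e4 : ∑ u ∈ G, ∑ v ∈ G, a u v ≤ ∑ u ∈ G, ∑ v, a u v :=
        sum_le_sum fun u _ => sum_le_sum_of_subset_of_nonneg (subset_univ _)
          fun _ _ _ => ha0 _ _
      have e5 := abs_le.1 (hF G)
      linarith [e5.1]
    have l2 : ∑ u ∈ G, d u ≤ D := by
      rw [hD]
      exact sum_le_sum_of_subset_of_nonneg (subset_univ _) fun u _ _ => hd0 u
    rw [sum_sub_distrib] at u1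
    have l3 : 3 / 4 * n * (3 / 4 * n - 1) ≤ (G.card : ℝ) * (G.card - 1) := by
      have : 0 ≤ (G.card : ℝ) - 3 / 4 * n := by linarith
      nlinarith
    have l4 : n ^ 2 / 10 ≤ Real.sqrt K * (36 * (ε * n ^ 2)) := by
      nlinarith
    have l5 : 1 / 10 ≤ Real.sqrt K * (36 * ε) := by
      have hn2 : 0 < n ^ 2 := by positivity
      have : n ^ 2 * (1 / 10) ≤ n ^ 2 * (Real.sqrt K * (36 * ε)) := by linarith
      exact le_of_mul_le_mul_left this hn2
    have l6 : (1 / 10 : ℝ) ^ 2 ≤ K * (36 * ε) ^ 2 := by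
      have e1 : (Real.sqrt K * (36 * ε)) ^ 2 = K * (36 * ε) ^ 2 := by
        rw [mul_pow, Real.sq_sqrt hK0]
      rw [← e1]
      exact pow_le_pow_left₀ (by norm_num) l5 2
    rw [div_le_iff₀ (by positivity)]
    rw [hKD]
    have : 0 ≤ n * (K * (36 * ε) ^ 2 - (1 / 10 : ℝ) ^ 2) := mul_nonneg hn0.le (by linarith)
    nlinarith

end Graph

/-! ### Submodular hypergraphs -/

section Defs
variable {V : Type} [DecidableEq V]

/-- A submodular hypergraph on the vertex set `V`: a finite set of hyperedges `e ⊆ V`, each with a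
nonnegative submodular splitting function `g e` on the subsets of `e` which vanishes at `∅`. -/
structure SubmodularHypergraph (V : Type) [DecidableEq V] where
  /-- the hyperedges -/
  edges : Finset (Finset V)
  /-- the splitting functions (only the values at the subsets of `e` matter) -/
  g : Finset V → Finset V → ℝ
  nonneg : ∀ e ∈ edges, ∀ S ⊆ e, 0 ≤ g e S
  empty : ∀ e ∈ edges, g e ∅ = 0
  submod : ∀ e ∈ edges, ∀ S ⊆ e, ∀ T ⊆ e, g e (S ∪ T) + g e (S ∩ T) ≤ g e S + g e T

/-- the cut value of `S` -/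
noncomputable def SubmodularHypergraph.cut (H : SubmodularHypergraph V) (S : Finset V) : ℝ :=
  ∑ e ∈ H.edges, H.g e (S ∩ e)

/-- The hyperedges of `E'` with the splitting functions `s e • g e`, `s e > 0`, form a
`(1 + ε)`-sparsifier of `H` (a reweighted sub-hypergraph). -/
def IsSparsifier (H : SubmodularHypergraph V) (ε : ℝ) (E' : Finset (Finset V))
    (s : Finset V → ℝ) : Prop :=
  E' ⊆ H.edges ∧ (∀ e ∈ E', 0 < s e) ∧ ∀ S : Finset V,
    (1 - ε) * H.cut S ≤ ∑ e ∈ E', s e * H.g e (S ∩ e) ∧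
    ∑ e ∈ E', s e * H.g e (S ∩ e) ≤ (1 + ε) * H.cut S

/-- the cut function of the directed hyperedge with the tail `t` and the head `h` -/
noncomputable def dirCut (t h S : Finset V) : ℝ :=
  if (t ∩ S).Nonempty ∧ (h \ S).Nonempty then 1 else 0

/-- `H` is a directed hypergraph of rank three: every hyperedge has three vertices and its
splitting function is the cut function of a directed hyperedge with one tail vertex and two head
vertices -/
def IsDirectedThree (H : SubmodularHypergraph V) : Prop :=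
  ∀ e ∈ H.edges, ∃ t h : Finset V, t.card = 1 ∧ h.card = 2 ∧ Disjoint t h ∧ t ∪ h = e ∧
    ∀ S ⊆ e, H.g e S = dirCut t h S

theorem dirCut_submod (t h S T : Finset V) :
    dirCut t h (S ∪ T) + dirCut t h (S ∩ T) ≤ dirCut t h S + dirCut t h T := by
  have h1 : (t ∩ (S ∪ T)).Nonempty ↔ (t ∩ S).Nonempty ∨ (t ∩ T).Nonempty := by
    rw [inter_union_distrib_left, union_nonempty]
  have h2 : (h \ (S ∪ T)).Nonempty → (h \ S).Nonempty ∧ (h \ T).Nonempty := by
    rintro ⟨v, hv⟩
    rw [mem_sdiff, mem_union, not_or] at hv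
    exact ⟨⟨v, mem_sdiff.2 ⟨hv.1, hv.2.1⟩⟩, ⟨v, mem_sdiff.2 ⟨hv.1, hv.2.2⟩⟩⟩
  have h3 : (t ∩ (S ∩ T)).Nonempty → (t ∩ S).Nonempty ∧ (t ∩ T).Nonempty := by
    rintro ⟨v, hv⟩
    rw [mem_inter, mem_inter] at hv
    exact ⟨⟨v, mem_inter.2 ⟨hv.1, hv.2.1⟩⟩, ⟨v, mem_inter.2 ⟨hv.1, hv.2.2⟩⟩⟩
  have h4 : (h \ (S ∩ T)).Nonempty → (h \ S).Nonempty ∨ (h \ T).Nonempty := by
    rintro ⟨v, hv⟩
    rw [mem_sdiff, mem_inter, not_and_or] at hv
    rcases hv.2 with h' | h'
    · exact Or.inl ⟨v, mem_sdiff.2 ⟨hv.1, h'⟩⟩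
    · exact Or.inr ⟨v, mem_sdiff.2 ⟨hv.1, h'⟩⟩
  have h5 : ∀ X : Finset V, 0 ≤ dirCut t h X := by
    intro X
    unfold dirCut
    split_ifs <;> norm_num
  have h6 : ∀ X : Finset V, (t ∩ X).Nonempty → (h \ X).Nonempty → dirCut t h X = 1 :=
    fun X hX hX' => if_pos ⟨hX, hX'⟩
  have h7 : ∀ X : Finset V, dirCut t h X ≤ 1 := by
    intro X
    unfold dirCut
    split_ifs <;> norm_num
  have h8 : ∀ X : Finset V, ¬ ((t ∩ X).Nonempty ∧ (h \ X).Nonempty) → dirCut t h X = 0 :=
    fun X hX => if_neg hX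
  by_cases p : (t ∩ (S ∪ T)).Nonempty ∧ (h \ (S ∪ T)).Nonempty
  · by_cases q : (t ∩ (S ∩ T)).Nonempty ∧ (h \ (S ∩ T)).Nonempty
    · rw [h6 S (h3 q.1).1 (h2 p.2).1, h6 T (h3 q.1).2 (h2 p.2).2]
      linarith [h7 (S ∪ T), h7 (S ∩ T)]
    · rw [h8 _ q]
      rcases h1.1 p.1 with hS | hT
      · rw [h6 S hS (h2 p.2).1]
        linarith [h7 (S ∪ T), h5 T]
      · rw [h6 T hT (h2 p.2).2]
        linarith [h7 (S ∪ T), h5 S]
  · rw [h8 _ p]
    by_cases q : (t ∩ (S ∩ T)).Nonempty ∧ (h \ (S ∩ T)).Nonempty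
    · rcases h4 q.2 with hS | hT
      · rw [h6 S (h3 q.1).1 hS]
        linarith [h7 (S ∩ T), h5 T]
      · rw [h6 T (h3 q.1).2 hT]
        linarith [h7 (S ∩ T), h5 S]
    · rw [h8 _ q]
      linarith [h5 S, h5 T]

end Defs

section Construction
variable {m n : ℕ}

/-- the hyperedge `x → {u, v}` -/
def ed (x : Fin m) (u v : Fin n) : Finset (Fin m ⊕ Fin n) := {Sum.inl x, Sum.inr u, Sum.inr v}

theorem mem_ed_inl {x y : Fin m} {u v : Fin n} : (Sum.inl y : Fin m ⊕ Fin n) ∈ ed x u v ↔ y = x := by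
  simp [ed]

theorem mem_ed_inr {x : Fin m} {u v w : Fin n} :
    (Sum.inr w : Fin m ⊕ Fin n) ∈ ed x u v ↔ w = u ∨ w = v := by
  simp [ed]

theorem ed_comm (x : Fin m) (u v : Fin n) : ed x u v = ed x v u := by
  ext w
  rcases w with w | w
  · rw [mem_ed_inl, mem_ed_inl]
  · rw [mem_ed_inr, mem_ed_inr, or_comm]

/-- tail and head of a hyperedge -/
def tl (e : Finset (Fin m ⊕ Fin n)) : Finset (Fin m ⊕ Fin n) := e.filter (fun w => w.isLeft = true)
def hd (e : Finset (Fin m ⊕ Fin n)) : Finset (Fin m ⊕ Fin n) := e.filter (fun w => w.isRight = true)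

/-- the set of the hyperedges -/
noncomputable def EE (m n : ℕ) : Finset (Finset (Fin m ⊕ Fin n)) :=
  ((univ : Finset (Fin m × Fin n × Fin n)).filter (fun t => t.2.1 < t.2.2)).image
    (fun t => ed t.1 t.2.1 t.2.2)

theorem ed_inj : Set.InjOn (fun t : Fin m × Fin n × Fin n => ed t.1 t.2.1 t.2.2)
    ((univ : Finset (Fin m × Fin n × Fin n)).filter (fun t => t.2.1 < t.2.2)) := by
  rintro ⟨x, u, v⟩ h1 ⟨x', u', v'⟩ h2 h
  simp only [coe_filter, mem_univ, true_and, Set.mem_ofPred_eq] at h1 h2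
  simp only at h
  have e1 : (Sum.inl x : Fin m ⊕ Fin n) ∈ ed x' u' v' := by rw [← h, mem_ed_inl]
  have e2 : (Sum.inr u : Fin m ⊕ Fin n) ∈ ed x' u' v' := by
    rw [← h, mem_ed_inr]; exact Or.inl rfl
  have e3 : (Sum.inr v : Fin m ⊕ Fin n) ∈ ed x' u' v' := by
    rw [← h, mem_ed_inr]; exact Or.inr rfl
  rw [mem_ed_inl] at e1
  rw [mem_ed_inr] at e2 e3
  have : u = u' ∧ v = v' := by
    rcases e2 with e2 | e2 <;> rcases e3 with e3 | e3 <;> subst e2 <;> subst e3
    · exact absurd h1 (lt_irrefl _)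
    · exact ⟨rfl, rfl⟩
    · exact absurd (h1.trans h2) (lt_irrefl _)
    · exact absurd h1 (lt_irrefl _)
  rw [e1, this.1, this.2]

/-- the directed hypergraph -/
noncomputable def HH (m n : ℕ) : SubmodularHypergraph (Fin m ⊕ Fin n) where
  edges := EE m n
  g := fun e S => dirCut (tl e) (hd e) S
  nonneg := by
    intro e _ S _
    show 0 ≤ dirCut _ _ _
    unfold dirCut
    split_ifs <;> norm_num
  empty := by
    intro e _
    show dirCut _ _ _ = 0
    unfold dirCut
    simp
  submod := by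
    intro e _ S _ T _
    exact dirCut_submod _ _ _ _

theorem HH_dir : IsDirectedThree (HH m n) := by
  intro e he
  refine ⟨tl e, hd e, ?_, ?_, ?_, ?_, fun S _ => rfl⟩
  all_goals
    change e ∈ EE m n at he
    unfold EE at he
    rw [mem_image] at he
    obtain ⟨⟨x, u, v⟩, h1, rfl⟩ := he
    rw [mem_filter] at h1
    have huv : u ≠ v := h1.2.ne
  · have : tl (ed x u v) = {Sum.inl x} := by
      ext w
      unfold tl
      rcases w with w | w
      · simp [mem_ed_inl]
      · simp
    simp only [this, card_singleton]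
  · have : hd (ed x u v) = {Sum.inr u, Sum.inr v} := by
      ext w
      unfold hd
      rcases w with w | w
      · simp
      · simp [mem_ed_inr]
    simp only [this]
    rw [card_pair]
    simpa using huv
  · rw [Finset.disjoint_left]
    intro w h2 h3
    unfold tl at h2
    unfold hd at h3
    rw [mem_filter] at h2 h3
    rcases w with w | w
    · simp at h3
    · simp at h2
  · ext w
    unfold tl hd
    rcases w with w | w <;> simp

/-- the test sets -/
noncomputable def SS (x : Fin m) (T : Finset (Fin n)) : Finset (Fin m ⊕ Fin n) :=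
  insert (Sum.inl x) (T.map Function.Embedding.inr)

theorem mem_SS_inl {x y : Fin m} {T : Finset (Fin n)} :
    (Sum.inl y : Fin m ⊕ Fin n) ∈ SS x T ↔ y = x := by
  simp [SS]

theorem mem_SS_inr {x : Fin m} {w : Fin n} {T : Finset (Fin n)} :
    (Sum.inr w : Fin m ⊕ Fin n) ∈ SS x T ↔ w ∈ T := by
  simp [SS]

theorem g_ed (x x' : Fin m) (u v : Fin n) (T : Finset (Fin n)) :
    (HH m n).g (ed x' u v) (SS x T ∩ ed x' u v) =
      if x' = x ∧ ¬ (u ∈ T ∧ v ∈ T) then 1 else 0 := by
  show dirCut _ _ _ = _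
  unfold dirCut
  have h1 : (tl (ed x' u v) ∩ (SS x T ∩ ed x' u v)).Nonempty ↔ x' = x := by
    constructor
    · rintro ⟨w, hw⟩
      unfold tl at hw
      rw [mem_inter, mem_inter, mem_filter] at hw
      rcases w with w | w
      · rw [mem_ed_inl, mem_SS_inl] at hw
        rw [← hw.1.1, hw.2.1]
      · simp at hw
    · intro h
      refine ⟨Sum.inl x', ?_⟩
      unfold tl
      rw [mem_inter, mem_inter, mem_filter, mem_ed_inl, mem_SS_inl]
      exact ⟨⟨rfl, rfl⟩, h, rfl⟩
  have h2 : (hd (ed x' u v) \ (SS x T ∩ ed x' u v)).Nonempty ↔ ¬ (u ∈ T ∧ v ∈ T) := by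
    constructor
    · rintro ⟨w, hw⟩ ⟨hu, hv⟩
      unfold hd at hw
      rw [mem_sdiff, mem_inter, mem_filter] at hw
      rcases w with w | w
      · simp at hw
      · rw [mem_ed_inr, mem_SS_inr] at hw
        apply hw.2
        refine ⟨?_, hw.1.1⟩
        rcases hw.1.1 with h | h
        · rw [h]; exact hu
        · rw [h]; exact hv
    · intro h
      rw [not_and_or] at h
      unfold hd
      rcases h with h | h
      · refine ⟨Sum.inr u, ?_⟩
        rw [mem_sdiff, mem_inter, mem_filter, mem_ed_inr, mem_SS_inr]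
        exact ⟨⟨Or.inl rfl, rfl⟩, fun h' => h h'.1⟩
      · refine ⟨Sum.inr v, ?_⟩
        rw [mem_sdiff, mem_inter, mem_filter, mem_ed_inr, mem_SS_inr]
        exact ⟨⟨Or.inr rfl, rfl⟩, fun h' => h h'.1⟩
  simp only [h1, h2]

theorem cut_ed (σ : Finset (Fin m ⊕ Fin n) → ℝ) (x : Fin m) (T : Finset (Fin n)) :
    ∑ e ∈ (HH m n).edges, σ e * (HH m n).g e (SS x T ∩ e) =
      ∑ u : Fin n, ∑ v : Fin n, if u < v then
        σ (ed x u v) * (if u ∈ T ∧ v ∈ T then 0 else 1) else 0 := by
  change ∑ e ∈ EE m n, σ e * (HH m n).g e (SS x T ∩ e) = _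
  unfold EE
  rw [sum_image ed_inj, sum_filter, Fintype.sum_prod_type, Finset.sum_eq_single x]
  · rw [Fintype.sum_prod_type]
    apply sum_congr rfl
    intro u _
    apply sum_congr rfl
    intro v _
    change (if u < v then σ (ed x u v) * (HH m n).g (ed x u v) (SS x T ∩ ed x u v) else 0) = _
    rw [g_ed]
    by_cases h : u < v
    · rw [if_pos h, if_pos h]
      congr 1
      by_cases h2 : u ∈ T ∧ v ∈ T
      · rw [if_neg (fun h' => h'.2 h2), if_pos h2]
      · rw [if_pos ⟨rfl, h2⟩, if_neg h2]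
    · rw [if_neg h, if_neg h]
  · intro y _ hy
    apply sum_eq_zero
    rintro ⟨u, v⟩ _
    change (if u < v then σ (ed y u v) * (HH m n).g (ed y u v) (SS x T ∩ ed y u v) else 0) = 0
    rw [g_ed, if_neg (show ¬ (y = x ∧ ¬ (u ∈ T ∧ v ∈ T)) from fun h' => hy h'.1), mul_zero,
      ite_self]
  · intro h
    exact absurd (mem_univ x) h

theorem sum_lt (f : Fin n → Fin n → ℝ) (hf : ∀ u v, f u v = f v u) :
    ∑ u, ∑ v, (if u = v then 0 else f u v) = 2 * ∑ u, ∑ v, (if u < v then f u v else 0) := by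
  have h1 : ∀ u v : Fin n, (if u = v then 0 else f u v) =
      (if u < v then f u v else 0) + (if v < u then f v u else 0) := by
    intro u v
    rcases lt_trichotomy u v with h | h | h
    · rw [if_neg h.ne, if_pos h, if_neg (not_lt.2 h.le), add_zero]
    · rw [if_pos h, if_neg (by rw [h]; exact lt_irrefl _), if_neg (by rw [h]; exact lt_irrefl _),
        add_zero]
    · rw [if_neg h.ne', if_neg (not_lt.2 h.le), if_pos h, zero_add, hf]
  simp only [h1, sum_add_distrib]
  have h2 : ∑ u : Fin n, ∑ v : Fin n, (if v < u then f v u else 0) =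
      ∑ u, ∑ v, (if u < v then f u v else 0) := sum_comm
  rw [h2]
  ring

/-- the sum of all the values minus the sum over the pairs inside `T` -/
theorem compl_sum (h : Fin n → Fin n → ℝ) (T : Finset (Fin n)) :
    ∑ u, ∑ v, h u v * (if u ∈ T ∧ v ∈ T then 0 else 1) = Ff h univ - Ff h T := by
  have h1 : Ff h T = ∑ u, ∑ v, h u v * (if u ∈ T ∧ v ∈ T then 1 else 0) := by
    rw [← Qf_ic]
    unfold Qf ic
    apply sum_congr rfl
    intro u _
    apply sum_congr rfl
    intro v _
    by_cases h1 : u ∈ T <;> by_cases h2 : v ∈ T <;> simp [h1, h2]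
  rw [h1]
  unfold Ff
  rw [← sum_sub_distrib]
  apply sum_congr rfl
  intro u _
  rw [← sum_sub_distrib]
  apply sum_congr rfl
  intro v _
  by_cases h2 : u ∈ T ∧ v ∈ T
  · rw [if_pos h2, if_pos h2]; ring
  · rw [if_neg h2, if_neg h2]; ring

theorem cut_two (σ : Finset (Fin m ⊕ Fin n) → ℝ) (x : Fin m) (T : Finset (Fin n)) :
    2 * ∑ e ∈ (HH m n).edges, σ e * (HH m n).g e (SS x T ∩ e) =
      Ff (fun u v => if u = v then 0 else σ (ed x u v)) univ -
        Ff (fun u v => if u = v then 0 else σ (ed x u v)) T := by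
  rw [cut_ed, ← compl_sum, ← sum_lt (fun u v => σ (ed x u v) * (if u ∈ T ∧ v ∈ T then 0 else 1))]
  · apply sum_congr rfl
    intro u _
    apply sum_congr rfl
    intro v _
    split_ifs <;> simp
  · intro u v
    rw [ed_comm]
    simp only [and_comm]

/-- one tail vertex -/
theorem slot {ε : ℝ} (he : 0 < ε) (h1 : 1 ≤ ε ^ 2 * n) (h2 : ε ≤ 1 / 10)
    {E' : Finset (Finset (Fin m ⊕ Fin n))} {s : Finset (Fin m ⊕ Fin n) → ℝ}
    (hE : IsSparsifier (HH m n) ε E' s) (x : Fin m) :
    (n : ℝ) / (1036800 * ε ^ 2) ≤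
      ∑ u : Fin n, ∑ v : Fin n, if u < v then (if ed x u v ∈ E' then (1 : ℝ) else 0) else 0 := by
  classical
  set σ : Finset (Fin m ⊕ Fin n) → ℝ := fun e => if e ∈ E' then s e else 0 with hσ
  have hσ0 : ∀ e, 0 ≤ σ e := by
    intro e
    simp only [hσ]
    split_ifs with h
    · exact (hE.2.1 e h).le
    · exact le_rfl
  set a : Fin n → Fin n → ℝ := fun u v => if u = v then 0 else σ (ed x u v) with ha
  have hsum : ∀ S, ∑ e ∈ E', s e * (HH m n).g e (S ∩ e) =
      ∑ e ∈ (HH m n).edges, σ e * (HH m n).g e (S ∩ e) := by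
    intro S
    rw [← sum_subset hE.1 (f := fun e => σ e * (HH m n).g e (S ∩ e))]
    · apply sum_congr rfl
      intro e h
      simp only [hσ, if_pos h]
    · intro e _ h
      simp only [hσ, if_neg h, zero_mul]
  have hcut1 : ∀ S, (HH m n).cut S = ∑ e ∈ (HH m n).edges, (1 : ℝ) * (HH m n).g e (S ∩ e) := by
    intro S
    unfold SubmodularHypergraph.cut
    simp only [one_mul]
  have hg := graph (a := a)
    (by
      intro u v
      simp only [ha]
      split_ifs
      · exact le_rfl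
      · exact hσ0 _)
    (by intro u; simp only [ha, if_true])
    (by
      intro u v
      simp only [ha]
      by_cases h : u = v
      · rw [if_pos h, if_pos h.symm]
      · rw [if_neg h, if_neg (Ne.symm h), ed_comm]) he (by rw [Fintype.card_fin]; exact h1) h2
    (by
      intro T
      rw [Fintype.card_fin]
      have e1 := hE.2.2 (SS x T)
      rw [hsum, hcut1] at e1
      have e2 := cut_two σ x T
      have e3 := cut_two (m := m) (n := n) (fun _ => 1) x T
      set J : Fin n → Fin n → ℝ := fun u v => if u = v then 0 else 1 with hJ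
      have e4 : ∀ U : Finset (Fin n), Ff (fun u v => if u = v then 0 else a u v - 1) U =
          Ff a U - Ff J U := by
        intro U
        unfold Ff
        rw [← sum_sub_distrib]
        apply sum_congr rfl
        intro u _
        rw [← sum_sub_distrib]
        apply sum_congr rfl
        intro v _
        simp only [ha, hJ]
        split_ifs <;> ring
      have e5 : Ff J univ - Ff J T ≤ (n : ℝ) ^ 2 := by
        rw [← compl_sum]
        calc ∑ u : Fin n, ∑ v : Fin n, J u v * (if u ∈ T ∧ v ∈ T then 0 else 1)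
            ≤ ∑ u : Fin n, ∑ v : Fin n, (1 : ℝ) := by
              apply sum_le_sum
              intro u _
              apply sum_le_sum
              intro v _
              simp only [hJ]
              split_ifs <;> norm_num
          _ = (n : ℝ) ^ 2 := by
              simp only [sum_const, card_univ, Fintype.card_fin, nsmul_eq_mul, mul_one]
              ring
      rw [e4, e4, abs_le]
      have e6 : ε * (Ff J univ - Ff J T) ≤ ε * (n : ℝ) ^ 2 := mul_le_mul_of_nonneg_left e5 he.le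
      constructor <;> nlinarith [e1.1, e1.2])
  rw [Fintype.card_fin] at hg
  have c1 : ((univ.filter (fun p : Fin n × Fin n => a p.1 p.2 ≠ 0)).card : ℝ) ≤
      ∑ u : Fin n, ∑ v : Fin n, if u = v then 0 else (if ed x u v ∈ E' then (1 : ℝ) else 0) := by
    rw [Finset.card_filter]
    push_cast
    rw [Fintype.sum_prod_type]
    apply sum_le_sum
    intro u _
    apply sum_le_sum
    intro v _
    simp only [ha, hσ]
    by_cases h : u = v
    · simp [h]
    · by_cases h3 : ed x u v ∈ E'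
      · simp only [if_neg h, if_pos h3]
        split_ifs <;> norm_num
      · simp [h, h3]
  rw [sum_lt _ (fun u v => by rw [ed_comm])] at c1
  have c2 : (n : ℝ) / (1036800 * ε ^ 2) = (n : ℝ) / (518400 * ε ^ 2) / 2 := by
    rw [div_div]
    congr 1
    ring
  rw [c2]
  linarith

theorem count {E' : Finset (Finset (Fin m ⊕ Fin n))} (hE : E' ⊆ EE m n) :
    (E'.card : ℝ) = ∑ x : Fin m, ∑ u : Fin n, ∑ v : Fin n,
      if u < v then (if ed x u v ∈ E' then (1 : ℝ) else 0) else 0 := by
  classical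
  have h1 : (E'.card : ℝ) = ∑ e ∈ EE m n, if e ∈ E' then (1 : ℝ) else 0 := by
    rw [Finset.sum_ite_mem, inter_eq_right.2 hE, sum_const, nsmul_eq_mul, mul_one]
  rw [h1]
  unfold EE
  rw [sum_image ed_inj, sum_filter, Fintype.sum_prod_type]
  apply sum_congr rfl
  intro x _
  rw [Fintype.sum_prod_type]

theorem lower {ε : ℝ} (he : 0 < ε) (h1 : 1 ≤ ε ^ 2 * n) (h2 : ε ≤ 1 / 10)
    {E' : Finset (Finset (Fin m ⊕ Fin n))} {s : Finset (Fin m ⊕ Fin n) → ℝ}
    (hE : IsSparsifier (HH m n) ε E' s) :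
    (m : ℝ) * n / (1036800 * ε ^ 2) ≤ E'.card := by
  rw [count hE.1]
  calc (m : ℝ) * n / (1036800 * ε ^ 2) = ∑ _x : Fin m, (n : ℝ) / (1036800 * ε ^ 2) := by
        rw [sum_const, card_univ, Fintype.card_fin, nsmul_eq_mul]
        ring
    _ ≤ _ := sum_le_sum fun x _ => slot he h1 h2 hE x

/-- the trivial bound, for every `ε < 1` -/
theorem slot_triv {ε : ℝ} (he : 0 < ε) (h1 : ε < 1) (hn : 2 ≤ n)
    {E' : Finset (Finset (Fin m ⊕ Fin n))} {s : Finset (Fin m ⊕ Fin n) → ℝ}
    (hE : IsSparsifier (HH m n) ε E' s) (x : Fin m) :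
    (n : ℝ) / 2 ≤
      ∑ u : Fin n, ∑ v : Fin n, if u < v then (if ed x u v ∈ E' then (1 : ℝ) else 0) else 0 := by
  classical
  set σ : Finset (Fin m ⊕ Fin n) → ℝ := fun e => if e ∈ E' then s e else 0 with hσ
  have hsum : ∀ S, ∑ e ∈ E', s e * (HH m n).g e (S ∩ e) =
      ∑ e ∈ (HH m n).edges, σ e * (HH m n).g e (S ∩ e) := by
    intro S
    rw [← sum_subset hE.1 (f := fun e => σ e * (HH m n).g e (S ∩ e))]
    · apply sum_congr rfl
      intro e h
      simp only [hσ, if_pos h]
    · intro e _ h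
      simp only [hσ, if_neg h, zero_mul]
  have hcut1 : ∀ S, (HH m n).cut S = ∑ e ∈ (HH m n).edges, (1 : ℝ) * (HH m n).g e (S ∩ e) := by
    intro S
    unfold SubmodularHypergraph.cut
    simp only [one_mul]
  have key : ∀ u : Fin n, (1 : ℝ) ≤
      ∑ v : Fin n, if u = v then 0 else (if ed x u v ∈ E' then (1 : ℝ) else 0) := by
    intro u
    obtain ⟨w, hw⟩ : ∃ w : Fin n, w ≠ u := by
      have : Nontrivial (Fin n) := Fin.nontrivial_iff_two_le.2 hn
      exact exists_ne u
    have hex : ∃ v, u ≠ v ∧ ed x u v ∈ E' := by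
      by_contra hcon
      push Not at hcon
      have hz : ∀ p q : Fin n, (p = u ∨ q = u) →
          (if p = q then 0 else σ (ed x p q)) = 0 := by
        intro p q hpq
        by_cases h : p = q
        · rw [if_pos h]
        · rw [if_neg h]
          rcases hpq with rfl | rfl
          · simp only [hσ, if_neg (hcon q h)]
          · rw [ed_comm]
            simp only [hσ, if_neg (hcon p (Ne.symm h))]
      have e1 := (hE.2.2 (SS x (univ.erase u))).1
      rw [hsum, hcut1] at e1
      have e2 := cut_two σ x (univ.erase u)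
      have e3 := cut_two (m := m) (n := n) (fun _ => 1) x (univ.erase u)
      rw [← compl_sum] at e2 e3
      have e4 : ∑ p : Fin n, ∑ q : Fin n, (if p = q then 0 else σ (ed x p q)) *
          (if p ∈ univ.erase u ∧ q ∈ univ.erase u then 0 else 1) = 0 := by
        apply sum_eq_zero
        intro p _
        apply sum_eq_zero
        intro q _
        by_cases h : p = u ∨ q = u
        · rw [hz p q h, zero_mul]
        · rw [not_or] at h
          have hm : p ∈ univ.erase u ∧ q ∈ univ.erase u :=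
            ⟨mem_erase.2 ⟨h.1, mem_univ _⟩, mem_erase.2 ⟨h.2, mem_univ _⟩⟩
          rw [if_pos hm, mul_zero]
      have e5 : (1 : ℝ) ≤ ∑ p : Fin n, ∑ q : Fin n, (if p = q then (0 : ℝ) else 1) *
          (if p ∈ univ.erase u ∧ q ∈ univ.erase u then 0 else 1) := by
        have f0 : ∀ p q : Fin n, 0 ≤ (if p = q then (0 : ℝ) else 1) *
            (if p ∈ univ.erase u ∧ q ∈ univ.erase u then 0 else 1) := by
          intro p q
          split_ifs <;> norm_num
        have f1 : (1 : ℝ) = (if u = w then (0 : ℝ) else 1) *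
            (if u ∈ univ.erase u ∧ w ∈ univ.erase u then 0 else 1) := by
          rw [if_neg (Ne.symm hw), if_neg (fun h => (mem_erase.1 h.1).1 rfl), one_mul]
        calc (1 : ℝ) = (if u = w then (0 : ℝ) else 1) *
              (if u ∈ univ.erase u ∧ w ∈ univ.erase u then 0 else 1) := f1
          _ ≤ ∑ q : Fin n, (if u = q then (0 : ℝ) else 1) *
              (if u ∈ univ.erase u ∧ q ∈ univ.erase u then 0 else 1) :=
              single_le_sum (f := fun q => (if u = q then (0 : ℝ) else 1) *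
                (if u ∈ univ.erase u ∧ q ∈ univ.erase u then 0 else 1))
                (fun q _ => f0 u q) (mem_univ w)
          _ ≤ _ := single_le_sum (f := fun p => ∑ q : Fin n, (if p = q then (0 : ℝ) else 1) *
                (if p ∈ univ.erase u ∧ q ∈ univ.erase u then 0 else 1))
                (fun p _ => sum_nonneg fun q _ => f0 p q) (mem_univ u)
      rw [e4] at e2
      nlinarith
    obtain ⟨v, hv1, hv2⟩ := hex
    have f0 : ∀ q : Fin n, 0 ≤ (if u = q then (0 : ℝ) else (if ed x u q ∈ E' then (1 : ℝ) else 0)) := by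
      intro q
      split_ifs <;> norm_num
    refine le_trans (le_of_eq ?_) (single_le_sum (fun q _ => f0 q) (mem_univ v))
    rw [if_neg hv1, if_pos hv2]
  have h2 : (n : ℝ) ≤ ∑ u : Fin n, ∑ v : Fin n,
      if u = v then 0 else (if ed x u v ∈ E' then (1 : ℝ) else 0) := by
    calc (n : ℝ) = ∑ _u : Fin n, (1 : ℝ) := by
          rw [sum_const, card_univ, Fintype.card_fin, nsmul_eq_mul, mul_one]
      _ ≤ _ := sum_le_sum fun u _ => key u
  rw [sum_lt _ (fun u v => by rw [ed_comm])] at h2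
  linarith

theorem lower_triv {ε : ℝ} (he : 0 < ε) (h1 : ε < 1) (hn : 2 ≤ n)
    {E' : Finset (Finset (Fin m ⊕ Fin n))} {s : Finset (Fin m ⊕ Fin n) → ℝ}
    (hE : IsSparsifier (HH m n) ε E' s) : (m : ℝ) * n / 2 ≤ E'.card := by
  rw [count hE.1]
  calc (m : ℝ) * n / 2 = ∑ _x : Fin m, (n : ℝ) / 2 := by
        rw [sum_const, card_univ, Fintype.card_fin, nsmul_eq_mul]
        ring
    _ ≤ _ := sum_le_sum fun x _ => slot_triv he h1 hn hE x

end Construction

theorem cut_nonneg {V : Type} [DecidableEq V] (H : SubmodularHypergraph V) (S : Finset V) :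
    0 ≤ H.cut S := sum_nonneg fun e he => H.nonneg e he _ inter_subset_right

/-- a sparsifier is a sparsifier for every larger error -/
theorem spars_mono {V : Type} [DecidableEq V] {H : SubmodularHypergraph V} {ε ε' : ℝ}
    (h : ε ≤ ε') {E' : Finset (Finset V)} {s : Finset V → ℝ} (hE : IsSparsifier H ε E' s) :
    IsSparsifier H ε' E' s := by
  refine ⟨hE.1, hE.2.1, fun S => ⟨?_, ?_⟩⟩
  · have h1 := (hE.2.2 S).1
    have h2 := mul_le_mul_of_nonneg_right h (cut_nonneg H S)
    linarith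
  · have h1 := (hE.2.2 S).2
    have h2 := mul_le_mul_of_nonneg_right h (cut_nonneg H S)
    linarith

/-- **Lower bound for the sparsification of directed hypergraphs of rank three.**
For every `N ≥ 3` there is a submodular hypergraph `H` on `N` vertices, all hyperedges of which are
directed hyperedges with one tail vertex and two head vertices, such that for every `ε` in `(0, 1)`
every `(1 + ε)`-sparsifier of `H` which is a reweighted sub-hypergraph has at least
`10⁻⁸ * min (ε⁻² N²) (N³)` hyperedges. -/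
theorem result (N : ℕ) (hN3 : 3 ≤ N) : ∃ (V : Type) (_ : Fintype V) (_ : DecidableEq V)
    (H : SubmodularHypergraph V), Fintype.card V = N ∧ IsDirectedThree H ∧
    ∀ ε : ℝ, 0 < ε → ε < 1 →
    ∀ (E' : Finset (Finset V)) (s : Finset V → ℝ), IsSparsifier H ε E' s →
      (1 / 10 ^ 8 : ℝ) * min ((ε⁻¹) ^ 2 * (N : ℝ) ^ 2) ((N : ℝ) ^ 3) ≤ E'.card := by
  refine ⟨Fin (N / 2) ⊕ Fin (N - N / 2), inferInstance, inferInstance,
    HH (N / 2) (N - N / 2), ?_, HH_dir, ?_⟩
  · rw [Fintype.card_sum, Fintype.card_fin, Fintype.card_fin]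
    omega
  · intro ε he h1 E' s hE
    have hNr : (0 : ℝ) < N := by exact_mod_cast (by omega : 0 < N)
    have k1 : (N : ℝ) / 2 ≤ ((N - N / 2 : ℕ) : ℝ) := by
      rw [div_le_iff₀ (by norm_num)]
      exact_mod_cast (by omega : N ≤ (N - N / 2) * 2)
    have k2 : (N : ℝ) / 3 ≤ ((N / 2 : ℕ) : ℝ) := by
      rw [div_le_iff₀ (by norm_num)]
      exact_mod_cast (by omega : N ≤ (N / 2) * 3)
    have k4 : (N : ℝ) / 3 * (N / 2) ≤ ((N / 2 : ℕ) : ℝ) * ((N - N / 2 : ℕ) : ℝ) :=
      mul_le_mul k2 k1 (by positivity) (by positivity)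
    have k6 : 0 ≤ (N : ℝ) ^ 2 := sq_nonneg _
    have t1 := lower_triv he h1 (by omega) hE
    have t2 : (N : ℝ) ^ 2 / 12 ≤ E'.card := by nlinarith
    -- the main bound
    have main : ∀ δ : ℝ, 0 < δ → δ ≤ 1 / 10 → 4 ≤ δ ^ 2 * N →
        IsSparsifier (HH (N / 2) (N - N / 2)) δ E' s →
        (1 / 10 ^ 7 : ℝ) * ((δ⁻¹) ^ 2 * (N : ℝ) ^ 2) ≤ E'.card := by
      intro δ hd0 hd1 hd2 hEd
      have k3 : 1 ≤ δ ^ 2 * ((N - N / 2 : ℕ) : ℝ) := by
        have := mul_le_mul_of_nonneg_left k1 (sq_nonneg δ)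
        linarith
      refine le_trans ?_ (lower hd0 k3 hd1 hEd)
      have he2 : 0 < δ ^ 2 := by positivity
      rw [le_div_iff₀ (by positivity)]
      have k5 : 1 / 10 ^ 7 * (δ⁻¹ ^ 2 * (N : ℝ) ^ 2) * (1036800 * δ ^ 2) =
          1036800 / 10 ^ 7 * (N : ℝ) ^ 2 := by
        rw [inv_pow]
        field_simp
      rw [k5]
      nlinarith
    rcases le_or_gt (N : ℝ) 400 with hsmall | hlarge
    · -- few vertices
      refine le_trans (mul_le_mul_of_nonneg_left (min_le_right _ _) (by norm_num)) ?_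
      refine le_trans ?_ t2
      have : (N : ℝ) ^ 3 ≤ 400 * (N : ℝ) ^ 2 := by
        rw [pow_succ]
        nlinarith
      linarith
    · rcases le_or_gt ε (1 / 10) with hs | hl
      · rcases le_or_gt 4 (ε ^ 2 * N) with h4 | h4
        · refine le_trans (mul_le_mul_of_nonneg_left (min_le_left _ _) (by norm_num)) ?_
          refine le_trans ?_ (main ε he hs h4 hE)
          have : 0 ≤ (ε⁻¹) ^ 2 * (N : ℝ) ^ 2 := by positivity
          nlinarith
        · -- very small errors
          obtain ⟨δ, hδ⟩ : ∃ δ : ℝ, δ = 2 / Real.sqrt N := ⟨_, rfl⟩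
          have hsq : 0 < Real.sqrt N := Real.sqrt_pos.2 hNr
          have hd0 : 0 < δ := by rw [hδ]; positivity
          have hd2 : δ ^ 2 * N = 4 := by
            rw [hδ, div_pow, Real.sq_sqrt hNr.le]
            field_simp
            norm_num
          have hed : ε ≤ δ := by
            by_contra hcon
            push Not at hcon
            have : δ ^ 2 ≤ ε ^ 2 := pow_le_pow_left₀ hd0.le hcon.le 2
            have := mul_le_mul_of_nonneg_right this hNr.le
            linarith
          have hd1 : δ ≤ 1 / 10 := by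
            by_contra hcon
            push Not at hcon
            have h5 : (1 / 10 : ℝ) ^ 2 ≤ δ ^ 2 := pow_le_pow_left₀ (by norm_num) hcon.le 2
            have := mul_le_mul_of_nonneg_right h5 hNr.le
            linarith
          have h6 := main δ hd0 hd1 hd2.ge (spars_mono hed hE)
          refine le_trans (mul_le_mul_of_nonneg_left (min_le_right _ _) (by norm_num)) ?_
          refine le_trans ?_ h6
          have h7 : (δ⁻¹) ^ 2 * (N : ℝ) ^ 2 = (N : ℝ) ^ 3 / 4 := by
            have hd3 : δ ^ 2 = 4 / N := by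
              rw [eq_div_iff hNr.ne']
              exact hd2
            rw [inv_pow, hd3]
            field_simp
          rw [h7]
          have : 0 ≤ (N : ℝ) ^ 3 := by positivity
          linarith
      · refine le_trans (mul_le_mul_of_nonneg_left (min_le_left _ _) (by norm_num)) ?_
        refine le_trans ?_ t2
        have h5 : (ε⁻¹) ^ 2 ≤ 10 ^ 2 := by
          apply pow_le_pow_left₀ (by positivity)
          rw [inv_le_comm₀ he (by norm_num)]
          linarith
        have := mul_le_mul_of_nonneg_right h5 k6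
        linarith

end Pool.Agent.Results.MP_348529_lc.DirectedLowerBound

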