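import Mathlib

/-!
# MP_348529_lc: quadratic-size reweighted sub-hypergraphs of submodular hypergraphs

Every submodular hypergraph on `n` vertices has a reweighted sub-hypergraph with at most `n ^ 2`
hyperedges whose cut values agree with the given ones up to the factor `(n + 1) ^ 2 / 4`.
-/

set_option autoImplicit false

namespace Pool.Agent.Results.MP_348529_lc.QuadraticSizeCoarse

open Finset

/-- A submodular hypergraph with vertex set `V` and hyperedges indexed by `E`: every hyperedge
`edge e ⊆ V` carries a splitting function `g e`, defined on subsets of `edge e` (its values elsewhere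
play no role), nonnegative, submodular and zero at `∅`. -/
structure SubmodularHypergraph (V E : Type) [DecidableEq V] where
  edge : E → Finset V
  g : E → Finset V → ℝ
  nonneg : ∀ e S, S ⊆ edge e → 0 ≤ g e S
  empty : ∀ e, g e ∅ = 0
  submod : ∀ e S T, S ⊆ edge e → T ⊆ edge e → g e (S ∪ T) + g e (S ∩ T) ≤ g e S + g e T

variable {V E : Type} [Fintype V] [DecidableEq V] [Fintype E]

/-- The cut value `∑ e, g_e (S ∩ e)` of `S ⊆ V`. -/
def SubmodularHypergraph.cut (H : SubmodularHypergraph V E) (S : Finset V) : ℝ :=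
  ∑ e, H.g e (S ∩ H.edge e)

/-- The cut value of `S` in the reweighted sub-hypergraph with the splitting functions `s_e g_e`, whose
hyperedges are the `e` with `s_e > 0`. -/
def SubmodularHypergraph.reweightedCut (H : SubmodularHypergraph V E) (s : E → ℝ) (S : Finset V) : ℝ :=
  ∑ e, s e * H.g e (S ∩ H.edge e)

section submodular

variable {G : Finset V → ℝ} (h0 : ∀ S, 0 ≤ G S) (hG : ∀ S T, G (S ∪ T) + G (S ∩ T) ≤ G S + G T)

include h0 hG in
lemma inter_le {ι : Type} [DecidableEq ι] (T : Finset ι) (hT : T.Nonempty) (A : ι → Finset V) :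
    G (T.inf A) ≤ ∑ v ∈ T, G (A v) := by
  induction hT using Finset.Nonempty.cons_induction with
  | singleton a => simp
  | cons a T ha _ ih =>
    rw [Finset.inf_cons, Finset.sum_cons]
    have h1 := hG (A a) (T.inf A)
    have h2 := h0 (A a ∪ T.inf A)
    have h3 : A a ⊓ T.inf A = A a ∩ T.inf A := rfl
    rw [h3]
    linarith

include h0 hG in
lemma union_le (he : G ∅ = 0) {ι : Type} [DecidableEq ι] (T : Finset ι) (A : ι → Finset V) :
    G (T.sup A) ≤ ∑ v ∈ T, G (A v) := by
  induction T using Finset.cons_induction with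
  | empty => simp [he]
  | cons a T ha ih =>
    rw [Finset.sup_cons, Finset.sum_cons]
    have h1 := hG (A a) (T.sup A)
    have h2 := h0 (A a ∩ T.sup A)
    have h3 : A a ⊔ T.sup A = A a ∪ T.sup A := rfl
    rw [h3]
    linarith

/-- the pair `(u, v)` is separated by `S`: `u ∈ S`, and `v ∉ S` unless `v = u` -/
def Adm (S : Finset V) (p : V × V) : Prop := p.1 ∈ S ∧ (p.2 = p.1 ∨ p.2 ∉ S)

instance (S : Finset V) : DecidablePred (Adm S) := fun _ => inferInstanceAs (Decidable (_ ∧ _))

include h0 hG in
lemma key (he : G ∅ = 0) (A : V × V → Finset V) (hA : ∀ p, Adm (A p) p) (S : Finset V) :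
    G S ≤ ∑ p ∈ univ.filter (Adm S), G (A p) := by
  let R : V → Finset V := fun u => univ.filter fun v => v = u ∨ v ∉ S
  let B : V → Finset V := fun u => (R u).inf fun v => A (u, v)
  have hRne : ∀ u, (R u).Nonempty := fun u => ⟨u, by simp [R]⟩
  have hS : S = S.sup B := by
    apply Finset.Subset.antisymm
    · intro u hu
      rw [Finset.mem_sup]
      refine ⟨u, hu, ?_⟩
      have : ({u} : Finset V) ≤ (R u).inf fun v => A (u, v) := by
        rw [Finset.le_inf_iff]
        intro v _
        rw [Finset.singleton_subset_iff]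
        exact (hA (u, v)).1
      exact this (Finset.mem_singleton_self u)
    · intro x hx
      rw [Finset.mem_sup] at hx
      obtain ⟨u, hu, hxu⟩ := hx
      by_contra hxS
      have hle : B u ≤ A (u, x) := Finset.inf_le (by simp [R, hxS])
      have h1 := hle hxu
      rcases (hA (u, x)).2 with h | h
      · have h' : x = u := h
        exact hxS (by rw [h']; exact hu)
      · exact h h1
  have h1 : G S ≤ ∑ u ∈ S, G (B u) := by
    conv_lhs => rw [hS]
    exact union_le h0 hG he S B
  have h2 : ∑ u ∈ S, G (B u) ≤ ∑ u ∈ S, ∑ v ∈ R u, G (A (u, v)) :=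
    Finset.sum_le_sum fun u _ => inter_le h0 hG (R u) (hRne u) _
  refine (h1.trans h2).trans (le_of_eq ?_)
  rw [← Finset.sum_finset_product' (univ.filter (Adm S)) S R]
  rintro ⟨u, v⟩
  simp [Adm, R]

end submodular

/-- the number of pairs separated by `S` -/
lemma card_adm (S : Finset V) :
    4 * ((univ.filter (Adm S)).card : ℝ) ≤ ((Fintype.card V : ℝ) + 1) ^ 2 := by
  have h : (univ.filter (Adm S)).card = ∑ u ∈ S, (univ.filter fun v => v = u ∨ v ∉ S).card := by
    have hmem : ∀ p : V × V, p ∈ univ.filter (Adm S) ↔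
        p.1 ∈ S ∧ p.2 ∈ univ.filter fun v => v = p.1 ∨ v ∉ S := by
      rintro ⟨u, v⟩
      simp [Adm]
    rw [Finset.card_eq_sum_ones, Finset.sum_finset_product' (univ.filter (Adm S)) S
      (fun u => univ.filter fun v => v = u ∨ v ∉ S) hmem (f := fun _ _ => 1)]
    simp
  have h2 : ∀ u ∈ S, (univ.filter fun v => v = u ∨ v ∉ S).card ≤ 1 + (Fintype.card V - S.card) := by
    intro u _
    have : (univ.filter fun v => v = u ∨ v ∉ S) ⊆ {u} ∪ Sᶜ := by
      intro v hv
      simpa using hv
    refine (Finset.card_le_card this).trans ((Finset.card_union_le _ _).trans ?_)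
    rw [Finset.card_singleton, Finset.card_compl]
  have h3 : (univ.filter (Adm S)).card ≤ S.card * (1 + (Fintype.card V - S.card)) := by
    rw [h]
    refine (Finset.sum_le_sum h2).trans ?_
    simp
  have h4 : S.card ≤ Fintype.card V := Finset.card_le_univ S
  have h5 : ((univ.filter (Adm S)).card : ℝ) ≤
      (S.card : ℝ) * (1 + ((Fintype.card V : ℝ) - S.card)) := by
    have := (Nat.cast_le (α := ℝ)).2 h3
    push_cast [Nat.cast_sub h4] at this
    exact this
  nlinarith [sq_nonneg ((Fintype.card V : ℝ) + 1 - 2 * S.card)]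

/-- Carathéodory's theorem for cones, for a finite family -/
lemma caratheodory {ι : Type} [Fintype ι] (w : E → ι → ℝ) :
    ∃ s : E → ℝ, (∀ e, 0 ≤ s e) ∧ (univ.filter fun e => 0 < s e).card ≤ Fintype.card ι ∧
      ∀ i, ∑ e, s e * w e i = ∑ e, w e i := by
  classical
  let P : ℕ → Prop := fun k => ∃ s : E → ℝ, (∀ e, 0 ≤ s e) ∧ (univ.filter fun e => 0 < s e).card = k ∧
      ∀ i, ∑ e, s e * w e i = ∑ e, w e i
  have hP : ∃ k, P k := ⟨_, fun _ => 1, fun _ => zero_le_one, rfl, fun i => by simp⟩
  obtain ⟨s, hs0, hcard, hs⟩ := Nat.find_spec hP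
  by_cases hle : Nat.find hP ≤ Fintype.card ι
  · exact ⟨s, hs0, hcard ▸ hle, hs⟩
  exfalso
  push Not at hle
  set T := univ.filter fun e => 0 < s e with hT
  have hnot : ¬ LinearIndependent ℝ (fun e : T => w e) := by
    intro hli
    have h1 := hli.fintype_card_le_finrank
    rw [Module.finrank_fintype_fun_eq_card, Fintype.card_coe, hcard] at h1
    omega
  rw [Fintype.not_linearIndependent_iff] at hnot
  obtain ⟨g, hg, e0, he0⟩ := hnot
  -- a relation with a positive coefficient
  obtain ⟨c, hc, hcT, e1, he1⟩ : ∃ c : E → ℝ, (∀ i, ∑ e, c e * w e i = 0) ∧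
      (∀ e, e ∉ T → c e = 0) ∧ ∃ e, 0 < c e := by
    have hbase : ∀ g' : T → ℝ, ∑ e, g' e • (w e : ι → ℝ) = 0 →
        (∀ i, ∑ e, (if h : e ∈ T then g' ⟨e, h⟩ else 0) * w e i = 0) := by
      intro g' hg' i
      have := congrFun hg' i
      simp only [Finset.sum_apply, Pi.smul_apply, smul_eq_mul, Pi.zero_apply] at this
      have e1 : ∑ e, (if h : e ∈ T then g' ⟨e, h⟩ else 0) * w e i = ∑ x : T, g' x * w x i := by
        rw [← Finset.sum_subset (Finset.subset_univ T), ← Finset.sum_coe_sort T]
        · refine Finset.sum_congr rfl fun e _ => ?_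
          simp [e.2]
        · intro e _ he
          simp [he]
      rw [e1]
      exact this
    rcases lt_or_gt_of_ne he0 with h | h
    · refine ⟨fun e => if h : e ∈ T then (-g) ⟨e, h⟩ else 0, hbase (-g) ?_, ?_, e0, ?_⟩
      · simp only [Pi.neg_apply, neg_smul, Finset.sum_neg_distrib, hg, neg_zero]
      · intro e he; simp [he]
      · simp only [e0.2, dif_pos, Subtype.coe_eta, Pi.neg_apply]
        linarith
    · refine ⟨fun e => if h : e ∈ T then g ⟨e, h⟩ else 0, hbase g hg, ?_, e0, ?_⟩
      · intro e he; simp [he]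
      · simpa only [e0.2, dif_pos, Subtype.coe_eta] using h
  -- the largest admissible step
  obtain ⟨e2, he2, hmin⟩ := Finset.exists_min_image (univ.filter fun e => 0 < c e)
    (fun e => s e / c e) ⟨e1, by simp [he1]⟩
  rw [Finset.mem_filter] at he2
  have hc2 := he2.2
  set t := s e2 / c e2 with ht
  have ht0 : 0 ≤ t := div_nonneg (hs0 e2) hc2.le
  have hnn : ∀ e, 0 ≤ s e - t * c e := by
    intro e
    rcases le_or_gt (c e) 0 with h | h
    · nlinarith [hs0 e, mul_nonneg ht0 (neg_nonneg.2 h)]
    · have := hmin e (by simp [h])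
      rw [le_div_iff₀ h] at this
      linarith
  have hlt : (univ.filter fun e => 0 < s e - t * c e).card < Nat.find hP := by
    rw [← hcard]
    apply Finset.card_lt_card
    rw [Finset.ssubset_iff_of_subset]
    · refine ⟨e2, ?_, ?_⟩
      · by_contra hcon
        rw [hcT e2 hcon] at hc2
        exact lt_irrefl _ hc2
      · simp only [Finset.mem_filter, Finset.mem_univ, true_and, not_lt]
        rw [ht, div_mul_cancel₀ _ hc2.ne', sub_self]
    · intro e he
      rw [Finset.mem_filter] at he
      by_contra hcon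
      have h1 := hcT e hcon
      have h2 : ¬ 0 < s e := fun h => hcon (by simp [hT, h])
      have h3 := he.2
      rw [h1, mul_zero, sub_zero] at h3
      exact h2 h3
  refine Nat.find_min hP hlt ⟨fun e => s e - t * c e, hnn, rfl, fun i => ?_⟩
  have : ∀ e, (s e - t * c e) * w e i = s e * w e i - t * (c e * w e i) := fun e => by ring
  simp only [this]
  rw [Finset.sum_sub_distrib, ← Finset.mul_sum, hc i, mul_zero, sub_zero, hs i]

/-- **Main theorem.** Every submodular hypergraph `H` with `n` vertices has a reweighted sub-hypergraph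
with at most `n ^ 2` hyperedges whose cut function agrees with that of `H` up to the factor
`(n + 1) ^ 2 / 4` in both directions. -/
theorem result (H : SubmodularHypergraph V E) :
    ∃ s : E → ℝ, (∀ e, 0 ≤ s e) ∧ (univ.filter fun e => 0 < s e).card ≤ Fintype.card V ^ 2 ∧
      ∀ S : Finset V,
        H.cut S ≤ ((Fintype.card V : ℝ) + 1) ^ 2 / 4 * H.reweightedCut s S ∧
        H.reweightedCut s S ≤ ((Fintype.card V : ℝ) + 1) ^ 2 / 4 * H.cut S := by
  classical
  let G : E → Finset V → ℝ := fun e S => H.g e (S ∩ H.edge e)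
  have h0 : ∀ e S, 0 ≤ G e S := fun e S => H.nonneg e _ Finset.inter_subset_right
  have hG : ∀ e S T, G e (S ∪ T) + G e (S ∩ T) ≤ G e S + G e T := by
    intro e S T
    have := H.submod e (S ∩ H.edge e) (T ∩ H.edge e) Finset.inter_subset_right
      Finset.inter_subset_right
    rw [← Finset.union_inter_distrib_right, ← Finset.inter_inter_distrib_right] at this
    exact this
  have he : ∀ e, G e ∅ = 0 := fun e => by simp [G, H.empty]
  -- minimisers
  have hmin : ∀ (e : E) (p : V × V), ∃ A : Finset V, Adm A p ∧ ∀ S, Adm S p → G e A ≤ G e S := by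
    intro e p
    obtain ⟨A, hA, hA'⟩ := Finset.exists_min_image (univ.filter fun S => Adm S p) (G e)
      ⟨{p.1}, by
        rw [Finset.mem_filter]
        exact ⟨Finset.mem_univ _, Finset.mem_singleton_self _, by
          rw [Finset.mem_singleton]; exact em _⟩⟩
    rw [Finset.mem_filter] at hA
    exact ⟨A, hA.2, fun S hS => hA' S (by simp [hS])⟩
  choose A hA hAmin using hmin
  obtain ⟨s, hs0, hcard, hs⟩ := caratheodory (fun e (p : V × V) => G e (A e p))
  refine ⟨s, hs0, ?_, fun S => ?_⟩
  · rw [Fintype.card_prod, ← sq] at hcard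
    exact hcard
  set P := univ.filter (Adm S) with hP
  set q := ((Fintype.card V : ℝ) + 1) ^ 2 / 4 with hq
  have hPq : (P.card : ℝ) ≤ q := by
    have := card_adm S
    rw [hq, le_div_iff₀ (by norm_num)]
    linarith
  have hcut : H.cut S = ∑ e, G e S := rfl
  have hrcut : H.reweightedCut s S = ∑ e, s e * G e S := rfl
  -- upper bounds by the sums over separated pairs
  have hu1 : ∀ c : E → ℝ, (∀ e, 0 ≤ c e) →
      ∑ e, c e * G e S ≤ ∑ p ∈ P, ∑ e, c e * G e (A e p) := by
    intro c hc
    rw [Finset.sum_comm]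
    refine Finset.sum_le_sum fun e _ => ?_
    rw [← Finset.mul_sum]
    exact mul_le_mul_of_nonneg_left (key (h0 e) (hG e) (he e) (A e) (hA e) S) (hc e)
  have hl1 : ∀ c : E → ℝ, (∀ e, 0 ≤ c e) →
      ∑ p ∈ P, ∑ e, c e * G e (A e p) ≤ q * ∑ e, c e * G e S := by
    intro c hc
    have hnn : 0 ≤ ∑ e, c e * G e S := Finset.sum_nonneg fun e _ => mul_nonneg (hc e) (h0 e S)
    calc ∑ p ∈ P, ∑ e, c e * G e (A e p) ≤ ∑ _p ∈ P, ∑ e, c e * G e S := by
          refine Finset.sum_le_sum fun p hp => Finset.sum_le_sum fun e _ => ?_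
          rw [hP, Finset.mem_filter] at hp
          exact mul_le_mul_of_nonneg_left (hAmin e p S hp.2) (hc e)
      _ = P.card * ∑ e, c e * G e S := by rw [Finset.sum_const, nsmul_eq_mul]
      _ ≤ q * ∑ e, c e * G e S := mul_le_mul_of_nonneg_right hPq hnn
  have hmid : ∑ p ∈ P, ∑ e, s e * G e (A e p) = ∑ p ∈ P, ∑ e, 1 * G e (A e p) := by
    refine Finset.sum_congr rfl fun p _ => ?_
    rw [hs p]
    simp
  have hone : H.cut S = ∑ e, 1 * G e S := by rw [hcut]; simp
  constructor
  · rw [hone, hrcut]
    refine (hu1 (fun _ => 1) fun _ => zero_le_one).trans ?_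
    rw [← hmid]
    exact hl1 s hs0
  · rw [hone, hrcut]
    refine (hu1 s hs0).trans ?_
    rw [hmid]
    exact hl1 (fun _ => 1) fun _ => zero_le_one

end Pool.Agent.Results.MP_348529_lc.QuadraticSizeCoarse
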