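import Pool.Agent.H733.RW.Agg
import Pool.Agent.H733.RW.Rep

/-!
# Submodular hypergraphs whose splitting functions are sums of small pieces

There is an absolute constant `C` such that every submodular hypergraph on `n` vertices, every
splitting function of which is the sum of the cut function of a weighted directed graph on the
hyperedge (of any size) and of at most `k` submodular functions of at most three vertices each,
has a `(1 + ε)`-sparsifier with at most `C (k + 1) ε⁻² n²` hyperedges which is a reweighted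
sub-hypergraph.  In particular (`k = 1`) this holds for all submodular hypergraphs whose hyperedges
have at most three vertices.
-/

set_option autoImplicit false

open Finset
open scoped RealInnerProductSpace

namespace Pool.Agent.Results.MP_348529_lc.SmallPiecesUpper

/-- A submodular hypergraph on the vertex set `V` with hyperedges indexed by `ι` (parallel
hyperedges are allowed): the hyperedge `e i` carries a nonnegative submodular splitting function
`g i` on its subsets which vanishes at `∅`. -/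
structure SubmodularHypergraph (V ι : Type) [DecidableEq V] where
  /-- the hyperedges -/
  e : ι → Finset V
  /-- the splitting functions (only the values at the subsets of `e i` matter) -/
  g : ι → Finset V → ℝ
  nonneg : ∀ i, ∀ S ⊆ e i, 0 ≤ g i S
  empty : ∀ i, g i ∅ = 0
  submod : ∀ i, ∀ S ⊆ e i, ∀ T ⊆ e i, g i (S ∪ T) + g i (S ∩ T) ≤ g i S + g i T

/-- the cut value of `S` -/
noncomputable def SubmodularHypergraph.cut {V ι : Type} [DecidableEq V] [Fintype ι]
    (H : SubmodularHypergraph V ι) (S : Finset V) : ℝ :=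
  ∑ i, H.g i (S ∩ H.e i)

/-- The hyperedges with index in `E'` and the splitting functions `s i • g i`, `s i > 0`, form a
`(1 + ε)`-sparsifier of `H` (a reweighted sub-hypergraph). -/
def IsSparsifier {V ι : Type} [DecidableEq V] [Fintype ι] (H : SubmodularHypergraph V ι) (ε : ℝ)
    (E' : Finset ι) (s : ι → ℝ) : Prop :=
  (∀ i ∈ E', 0 < s i) ∧ ∀ S : Finset V,
    (1 - ε) * H.cut S ≤ ∑ i ∈ E', s i * H.g i (S ∩ H.e i) ∧
    ∑ i ∈ E', s i * H.g i (S ∩ H.e i) ≤ (1 + ε) * H.cut S

/-- The splitting function `g` of the hyperedge `e` is the sum of the cut function of a directed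
graph on `e` with arc weights `w a b ≥ 0` and vertex weights `c a ≥ 0` and of `k` nonnegative
submodular functions `f l` of sets `A l ⊆ e` of at most three vertices. -/
def IsSmallSum {V : Type} [DecidableEq V] (k : ℕ) (e : Finset V) (g : Finset V → ℝ) : Prop :=
  ∃ (c : V → ℝ) (w : V → V → ℝ) (A : Fin k → Finset V) (f : Fin k → Finset V → ℝ),
    (∀ a, 0 ≤ c a) ∧ (∀ a b, 0 ≤ w a b) ∧
    (∀ l, A l ⊆ e ∧ (A l).card ≤ 3 ∧ (∀ S ⊆ A l, 0 ≤ f l S) ∧ f l ∅ = 0 ∧
      ∀ S ⊆ A l, ∀ T ⊆ A l, f l (S ∪ T) + f l (S ∩ T) ≤ f l S + f l T) ∧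
    ∀ S ⊆ e, g S = ∑ a ∈ S, c a + ∑ a ∈ S, ∑ b ∈ e \ S, w a b + ∑ l, f l (S ∩ A l)

/-- reweighting, for arbitrary finite index types -/
theorem aggF : ∃ C : ℝ, 0 < C ∧ ∀ (κ ι : Type) [Fintype κ] [Fintype ι] (w : ι → κ → ℝ) (ε : ℝ),
    0 < ε → ε < 1 → ∃ t : ι → ℝ, (∀ j, 0 ≤ t j) ∧
      (∃ E' : Finset ι, (∀ j, j ∈ E' ↔ t j ≠ 0) ∧
        (E'.card : ℝ) ≤ C * (Fintype.card κ : ℝ) / ε ^ 2) ∧
      ∀ y : κ → ℝ, abs ((∑ j, t j * |∑ k, w j k * y k|) - ∑ j, |∑ k, w j k * y k|) ≤
        ε * ∑ j, |∑ k, w j k * y k| := by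
  classical
  obtain ⟨C, hC0, hC⟩ := Pool.Agent.H733.RW.agg
  refine ⟨C, hC0, fun κ ι _ _ w ε he he1 => ?_⟩
  have f := Fintype.equivFin κ
  have h := Fintype.equivFin ι
  obtain ⟨t, ht, hc, hx⟩ := hC (Fintype.card κ) (Fintype.card ι)
    (fun j => WithLp.toLp 2 (fun k => w (h.symm j) (f.symm k))) ε he he1
  refine ⟨fun j => t (h j), fun j => ht _, ⟨univ.filter (fun j => t (h j) ≠ 0),
    fun j => by simp, ?_⟩, fun y => ?_⟩
  · refine le_trans (le_of_eq ?_) hc
    congr 1
    apply card_bij (fun j _ => h j)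
    · intro j hj
      rw [mem_filter] at hj ⊢
      exact ⟨mem_univ _, hj.2⟩
    · intro i _ j _ hij
      exact h.injective hij
    · intro j hj
      rw [mem_filter] at hj
      exact ⟨h.symm j, mem_filter.2 ⟨mem_univ _, by rw [Equiv.apply_symm_apply]; exact hj.2⟩,
        Equiv.apply_symm_apply h j⟩
  · have h1 := hx (WithLp.toLp 2 (fun k => y (f.symm k)))
    have h2 : ∀ j, ⟪(WithLp.toLp 2 (fun k => w (h.symm j) (f.symm k)) :
        EuclideanSpace ℝ (Fin (Fintype.card κ))), WithLp.toLp 2 (fun k => y (f.symm k))⟫ =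
        ∑ k, w (h.symm j) k * y k := by
      intro j
      rw [PiLp.inner_apply, ← f.symm.sum_comp (fun k => w (h.symm j) k * y k)]
      apply sum_congr rfl
      intro k _
      simp [mul_comm]
    have h3 : ∀ F : Fin (Fintype.card ι) → ι → ℝ,
        ∑ j, F j (h.symm j) = ∑ i, F (h i) i := by
      intro F
      rw [← h.sum_comp (fun j => F j (h.symm j))]
      simp only [Equiv.symm_apply_apply]
    have h4 : ∑ j, t j * |⟪(WithLp.toLp 2 (fun k => w (h.symm j) (f.symm k)) :
        EuclideanSpace ℝ (Fin (Fintype.card κ))), WithLp.toLp 2 (fun k => y (f.symm k))⟫| =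
        ∑ i, t (h i) * |∑ k, w i k * y k| := by
      simp only [h2]
      exact h3 (fun j i => t j * |∑ k, w i k * y k|)
    have h5 : ∑ j, |⟪(WithLp.toLp 2 (fun k => w (h.symm j) (f.symm k)) :
        EuclideanSpace ℝ (Fin (Fintype.card κ))), WithLp.toLp 2 (fun k => y (f.symm k))⟫| =
        ∑ i, |∑ k, w i k * y k| := by
      simp only [h2]
      exact h3 (fun j i => |∑ k, w i k * y k|)
    rw [h4, h5] at h1
    exact h1

/-- the core statement, for splitting functions which are sums of absolute values of quadratic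
polynomials indexed by `P` -/
theorem core : ∃ C : ℝ, 0 < C ∧ ∀ (V ι P : Type) [Fintype V] [DecidableEq V] [Fintype ι]
    [Fintype P] (H : SubmodularHypergraph V ι) (q : ι → P → V × V → ℝ),
    (∀ i S, H.g i (S ∩ H.e i) =
      ∑ p, |∑ k : V × V, q i p k * (if k.1 ∈ S ∧ k.2 ∈ S then 1 else 0)|) →
    ∀ ε : ℝ, 0 < ε → ε < 1 → ∃ (E' : Finset ι) (s : ι → ℝ), IsSparsifier H ε E' s ∧
      (E'.card : ℝ) ≤ C * (Fintype.card P : ℝ) * (ε⁻¹) ^ 2 * (Fintype.card V : ℝ) ^ 2 := by
  classical
  obtain ⟨C, hC0, hC⟩ := aggF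
  refine ⟨C, hC0, fun V ι P _ _ _ _ H q hq ε he he1 => ?_⟩
  obtain ⟨t, ht, ⟨E', hE', hcard⟩, hx⟩ := hC (P × (V × V)) ι
    (fun i k => q i k.1 k.2) ε he he1
  refine ⟨E', t, ⟨fun i hi => lt_of_le_of_ne (ht i) (Ne.symm ((hE' i).1 hi)), fun S => ?_⟩, ?_⟩
  · -- the test vectors
    set y : P → P × (V × V) → ℝ := fun p k =>
      if k.1 = p then (if k.2.1 ∈ S ∧ k.2.2 ∈ S then 1 else 0) else 0 with hy
    have h1 : ∀ i p, ∑ k, q i k.1 k.2 * y p k =
        ∑ k : V × V, q i p k * (if k.1 ∈ S ∧ k.2 ∈ S then 1 else 0) := by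
      intro i p
      rw [Fintype.sum_prod_type, sum_eq_single_of_mem p (mem_univ p)]
      · apply sum_congr rfl
        intro k _
        simp only [hy, if_true]
      · intro p' _ hp
        apply sum_eq_zero
        intro k _
        simp only [hy, if_neg hp, mul_zero]
    have h2 : ∀ i, H.g i (S ∩ H.e i) = ∑ p, |∑ k, q i k.1 k.2 * y p k| := by
      intro i
      rw [hq i S]
      apply sum_congr rfl
      intro p _
      rw [h1]
    have h4 : H.cut S = ∑ p, ∑ i, |∑ k, q i k.1 k.2 * y p k| := by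
      unfold SubmodularHypergraph.cut
      rw [sum_comm]
      exact sum_congr rfl fun i _ => h2 i
    have h5 : ∑ i ∈ E', t i * H.g i (S ∩ H.e i) =
        ∑ p, ∑ i, t i * |∑ k, q i k.1 k.2 * y p k| := by
      rw [sum_subset (subset_univ E') (fun i _ hi => by
        have : t i = 0 := by
          by_contra hcon
          exact hi ((hE' i).2 hcon)
        rw [this, zero_mul]), sum_comm]
      apply sum_congr rfl
      intro i _
      rw [h2 i, mul_sum]
    have h6 : |∑ i ∈ E', t i * H.g i (S ∩ H.e i) - H.cut S| ≤ ε * H.cut S := by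
      rw [h4, h5, ← sum_sub_distrib, mul_sum]
      exact (abs_sum_le_sum_abs _ _).trans (sum_le_sum fun p _ => hx (y p))
    rw [abs_le] at h6
    constructor <;> linarith [h6.1, h6.2]
  · refine hcard.trans (le_of_eq ?_)
    simp only [Fintype.card_prod]
    push_cast
    rw [inv_pow, div_eq_mul_inv]
    ring

/-- the cut function of a directed graph is a quadratic polynomial -/
theorem graph_quad {V : Type} [Fintype V] [DecidableEq V] (e : Finset V) (c : V → ℝ)
    (w : V → V → ℝ) (S : Finset V) :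
    ∑ a ∈ S ∩ e, c a + ∑ a ∈ S ∩ e, ∑ b ∈ e \ (S ∩ e), w a b =
      ∑ k : V × V, ((if k.1 = k.2 ∧ k.1 ∈ e then c k.1 + ∑ b ∈ e, w k.1 b else 0) -
        (if k.1 ∈ e ∧ k.2 ∈ e then w k.1 k.2 else 0)) *
        (if k.1 ∈ S ∧ k.2 ∈ S then 1 else 0) := by
  have h1 : ∀ a ∈ S ∩ e, ∑ b ∈ e \ (S ∩ e), w a b = ∑ b ∈ e, w a b - ∑ b ∈ S ∩ e, w a b := by
    intro a _
    rw [eq_sub_iff_add_eq, sum_sdiff inter_subset_right]
  rw [sum_congr rfl h1, Fintype.sum_prod_type, ← sum_add_distrib]
  rw [← sum_subset (subset_univ (S ∩ e))]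
  · apply sum_congr rfl
    intro a ha
    rw [mem_inter] at ha
    simp only [sub_mul]
    rw [sum_sub_distrib]
    have e1 : ∑ b, (if a = b ∧ a ∈ e then c a + ∑ b ∈ e, w a b else 0) *
        (if a ∈ S ∧ b ∈ S then (1 : ℝ) else 0) = c a + ∑ b ∈ e, w a b := by
      rw [sum_eq_single_of_mem a (mem_univ a)]
      · rw [if_pos ⟨rfl, ha.2⟩, if_pos ⟨ha.1, ha.1⟩, mul_one]
      · intro b _ hb
        rw [if_neg (fun h => hb h.1.symm), zero_mul]
    have e2 : ∑ b, (if a ∈ e ∧ b ∈ e then w a b else 0) *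
        (if a ∈ S ∧ b ∈ S then (1 : ℝ) else 0) = ∑ b ∈ S ∩ e, w a b := by
      rw [← sum_subset (subset_univ (S ∩ e))]
      · apply sum_congr rfl
        intro b hb
        rw [mem_inter] at hb
        rw [if_pos ⟨ha.2, hb.2⟩, if_pos ⟨ha.1, hb.1⟩, mul_one]
      · intro b _ hb
        rw [mem_inter, not_and_or] at hb
        rcases hb with hb | hb
        · rw [if_neg (fun h : a ∈ S ∧ b ∈ S => hb h.2), mul_zero]
        · rw [if_neg (fun h : a ∈ e ∧ b ∈ e => hb h.2), zero_mul]
    rw [e1, e2]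
    ring
  · intro a _ ha
    rw [mem_inter, not_and_or] at ha
    apply sum_eq_zero
    intro b _
    rcases ha with ha | ha
    · rw [if_neg (fun h : a ∈ S ∧ b ∈ S => ha h.1), mul_zero]
    · rw [if_neg (fun h : a = b ∧ a ∈ e => ha h.2), if_neg (fun h : a ∈ e ∧ b ∈ e => ha h.1),
        sub_zero, zero_mul]

/-- **Theorem.**  There is an absolute constant `C` such that for all `k` and all `ε` in `(0, 1)`
every submodular hypergraph on `n` vertices, every splitting function of which is the sum of the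
cut function of a weighted directed graph on the hyperedge and of `k` submodular functions of at
most three vertices each, has a `(1 + ε)`-sparsifier which is a reweighted sub-hypergraph with at
most `C (k + 1) ε⁻² n²` hyperedges. -/
theorem result : ∃ C : ℝ, 0 < C ∧ ∀ (V ι : Type) [Fintype V] [DecidableEq V] [Fintype ι]
    (H : SubmodularHypergraph V ι) (k : ℕ), (∀ i, IsSmallSum k (H.e i) (H.g i)) →
    ∀ ε : ℝ, 0 < ε → ε < 1 → ∃ (E' : Finset ι) (s : ι → ℝ), IsSparsifier H ε E' s ∧
      (E'.card : ℝ) ≤ C * (k + 1) * (ε⁻¹) ^ 2 * (Fintype.card V : ℝ) ^ 2 := by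
  classical
  obtain ⟨C, hC0, hC⟩ := core
  refine ⟨64 * C, by positivity, fun V ι _ _ _ H k hH ε he he1 => ?_⟩
  choose c w A f hc hw hf hg using hH
  choose q hq using fun i l => Pool.Agent.H733.RW.rep (A i l) (hf i l).2.1 (f i l)
    (hf i l).2.2.1 (hf i l).2.2.2.1 (hf i l).2.2.2.2
  obtain ⟨E', s, hs, hcard⟩ := hC V ι (Option (Fin k × (Fin 8 × Fin 8))) H
    (fun i p => match p with
      | none => fun v => (if v.1 = v.2 ∧ v.1 ∈ H.e i then c i v.1 + ∑ b ∈ H.e i, w i v.1 b
          else 0) - (if v.1 ∈ H.e i ∧ v.2 ∈ H.e i then w i v.1 v.2 else 0)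
      | some p => q i p.1 p.2) (fun i S => by
    rw [Fintype.sum_option, hg i _ inter_subset_right]
    simp only []
    rw [← graph_quad (H.e i) (c i) (w i) S, abs_of_nonneg, Fintype.sum_prod_type]
    · congr 1
      apply sum_congr rfl
      intro l _
      rw [← hq i l S, inter_assoc, inter_eq_right.2 (hf i l).1]
    · exact add_nonneg (sum_nonneg fun a _ => hc i a)
        (sum_nonneg fun a _ => sum_nonneg fun b _ => hw i a b)) ε he he1
  refine ⟨E', s, hs, hcard.trans ?_⟩
  simp only [Fintype.card_option, Fintype.card_prod, Fintype.card_fin]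
  push_cast
  have h1 : 0 ≤ C * (ε⁻¹) ^ 2 * (Fintype.card V : ℝ) ^ 2 := by positivity
  nlinarith

end Pool.Agent.Results.MP_348529_lc.SmallPiecesUpper
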